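import Mathlib
import Pool.Agent.P8H13.CL.Dens
import Pool.Agent.P8H13.CL.Up

/-!
# How many of Oppermann's intervals have a prime at a prescribed relative position (helper13)

For `α ∈ (0, 1)` let `below α N` be the number of the `x ∈ (N, 2 N]` with `x² - x + ⌊α x⌋` prime and
`above α N` the number of the `x ∈ (N, 2 N]` with `x² + ⌊α x⌋` prime: the primes are at the relative
position `α` of Oppermann's intervals `(x² - x, x²)` and `(x², x² + x)`. For almost every `α` (Lebesgue
measure) both numbers are at most `C N / log N` for every large `N`, and at least `c N / log N` for a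
positive proportion of the scales: for every strictly increasing sequence `u` of scales the set of the `k`
with `c u_k / log u_k ≤ below α (u_k)` (`≤ above α (u_k)`) has upper density at least `δ`.
The constants `c, δ, C` depend neither on `α` nor on `u`.

Proof. Lower bound: for every interval `[β, γ] ⊆ [0, 1]` and every large `N` the number of the pairs
`(x, a)`, `N < x ≤ 2 N`, `β x ≤ a ≤ γ x - 1`, with `x² + a` (`x² - x + a`) prime is at least
`c (γ - β) N² / log N`: the lower bound for the number of the primes `x² + a`, `x ≤ N`, for almost all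
`a ≤ N` of the starting library (`Pool.Agent.N792.t9`, helper792, the hand-in
`MP_391708_nt.ThinFamilyLowerBound`) and the lower bound for most constants of Hardy and Littlewood
(`Pool.Agent.N511.LL.b2`, helper511, and `Pool.Agent.N792.x8`). Hence the mean over
`α ∈ [β, γ]` of the number of the primes is at least `c' N / log N`. Upper bound: by Dirichlet's theorem
every `α ∈ [0, 1]` outside a set of the measure `O(N^(-1/2))` has an approximation `|α - h / q| ≤ 1 / q²` with
`N^(1/4) ≤ q ≤ N^(3/4)`; on blocks of `q` consecutive terms of an arithmetic progression the values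
`x² + ⌊α x⌋` are equidistributed to small moduli, which gives the upper bound `C N / log N` with the weights
of an upper bound sieve (`Pool.Agent.Y257.HS`). The two
bounds give a set of the measure at least `c₃ (γ - β)` of good `α ∈ [β, γ]` for every large `N`, for some
`c₃` not depending on `β, γ`; averaging over the scales and Lebesgue's density theorem give the lower
bound, and the Borel-Cantelli lemma for the exceptional sets at the scales `2^j` gives the upper bound.
-/

set_option autoImplicit false

namespace Pool.Agent.Results.MP_a8fbd7_nt.CountsAlongLines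

open Finset Filter

/-- The number of the `x` with `N < x ≤ 2 N` for which `x² + ⌊α x⌋` is a prime. -/
noncomputable def above (α : ℝ) (N : ℕ) : ℕ :=
  ((Ioc N (2 * N)).filter (fun x : ℕ => (x ^ 2 + ⌊α * x⌋₊).Prime)).card

/-- The number of the `x` with `N < x ≤ 2 N` for which `x² - x + ⌊α x⌋` is a prime. -/
noncomputable def below (α : ℝ) (N : ℕ) : ℕ :=
  ((Ioc N (2 * N)).filter (fun x : ℕ => (x ^ 2 - x + ⌊α * x⌋₊).Prime)).card

/-- **Primes along almost all lines.** There are `c, δ, C > 0` such that
(i) for almost every `α ∈ (0, 1)` and every large `N` both `above α N` and `below α N` are at most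
`C N / log N`;
(ii) for every strictly increasing sequence `u` of natural numbers and almost every `α ∈ (0, 1)` there are
arbitrarily large `K` such that at least `δ K` of the `k < K` satisfy `c u_k / log u_k ≤ above α (u_k)`, and
there are arbitrarily large `K` such that at least `δ K` of the `k < K` satisfy
`c u_k / log u_k ≤ below α (u_k)`. -/
theorem result : ∃ c δ C : ℝ, 0 < c ∧ 0 < δ ∧ 0 < C ∧
    (∀ᵐ α : ℝ, 0 < α → α < 1 → ∀ᶠ N : ℕ in atTop,
      (above α N : ℝ) ≤ C * (N / Real.log N) ∧ (below α N : ℝ) ≤ C * (N / Real.log N)) ∧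
    ∀ u : ℕ → ℕ, StrictMono u → ∀ᵐ α : ℝ, 0 < α → α < 1 →
      (∃ᶠ K : ℕ in atTop, δ * K ≤ (((range K).filter (fun k : ℕ =>
        c * ((u k : ℝ) / Real.log (u k)) ≤ (above α (u k) : ℝ))).card : ℝ)) ∧
      (∃ᶠ K : ℕ in atTop, δ * K ≤ (((range K).filter (fun k : ℕ =>
        c * ((u k : ℝ) / Real.log (u k)) ≤ (below α (u k) : ℝ))).card : ℝ)) := by
  classical
  have e0 : ∀ x : ℕ, Pool.Agent.P8H13.OP.q 0 x = x ^ 2 := by
    intro x
    unfold Pool.Agent.P8H13.OP.q
    rw [zero_mul, add_zero]
    have : ((x : ℤ) ^ 2) = ((x ^ 2 : ℕ) : ℤ) := by push_cast; rfl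
    rw [this, Int.toNat_natCast]
  have e1 : ∀ x : ℕ, Pool.Agent.P8H13.OP.q (-1) x = x ^ 2 - x := by
    intro x
    have hx : x ≤ x ^ 2 := Nat.le_self_pow (by norm_num) x
    unfold Pool.Agent.P8H13.OP.q
    have : ((x : ℤ) ^ 2 + -1 * x) = ((x ^ 2 - x : ℕ) : ℤ) := by
      rw [Nat.cast_sub hx]
      push_cast
      ring
    rw [this, Int.toNat_natCast]
  have n0 : ∀ (α : ℝ) (N : ℕ), Pool.Agent.P8H13.CL.num 0 α N = above α N := by
    intro α N
    unfold Pool.Agent.P8H13.CL.num above
    simp only [e0]
  have n1 : ∀ (α : ℝ) (N : ℕ), Pool.Agent.P8H13.CL.num (-1) α N = below α N := by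
    intro α N
    unfold Pool.Agent.P8H13.CL.num below
    simp only [e1]
  obtain ⟨c0, δ0, hc0, hδ0, l0⟩ := Pool.Agent.P8H13.CL.dens 0 (Or.inl rfl)
  obtain ⟨c1, δ1, hc1, hδ1, l1⟩ := Pool.Agent.P8H13.CL.dens (-1) (Or.inr rfl)
  obtain ⟨C0, hC0, m0⟩ := Pool.Agent.P8H13.CL.upper 0 (Or.inl rfl)
  obtain ⟨C1, hC1, m1⟩ := Pool.Agent.P8H13.CL.upper (-1) (Or.inr rfl)
  have hy : ∀ n : ℕ, 0 ≤ (n : ℝ) / Real.log n := fun n =>
    div_nonneg (Nat.cast_nonneg _) (Real.log_natCast_nonneg _)
  refine ⟨min c0 c1, min δ0 δ1, max C0 C1, lt_min hc0 hc1, lt_min hδ0 hδ1, lt_max_of_lt_left hC0, ?_, ?_⟩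
  · filter_upwards [m0, m1] with α a0 a1 hα0 hα1
    filter_upwards [a0 ⟨hα0, hα1⟩, a1 ⟨hα0, hα1⟩] with N b0 b1
    rw [n0] at b0
    rw [n1] at b1
    exact ⟨b0.trans (mul_le_mul_of_nonneg_right (le_max_left _ _) (hy N)),
      b1.trans (mul_le_mul_of_nonneg_right (le_max_right _ _) (hy N))⟩
  · intro u hu
    filter_upwards [l0 u hu, l1 u hu] with α a0 a1 hα0 hα1
    have b0 := a0 ⟨hα0, hα1⟩
    have b1 := a1 ⟨hα0, hα1⟩
    simp only [n0] at b0
    simp only [n1] at b1
    constructor
    · refine b0.mono fun K hK => ?_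
      refine (mul_le_mul_of_nonneg_right (min_le_left _ _) (Nat.cast_nonneg K)).trans (hK.trans ?_)
      have : ((range K).filter (fun k : ℕ =>
          c0 * ((u k : ℝ) / Real.log (u k)) ≤ (above α (u k) : ℝ))) ⊆
          ((range K).filter (fun k : ℕ =>
          min c0 c1 * ((u k : ℝ) / Real.log (u k)) ≤ (above α (u k) : ℝ))) := by
        intro k hk
        rw [mem_filter] at hk ⊢
        exact ⟨hk.1, (mul_le_mul_of_nonneg_right (min_le_left _ _) (hy _)).trans hk.2⟩
      exact_mod_cast card_le_card this
    · refine b1.mono fun K hK => ?_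
      refine (mul_le_mul_of_nonneg_right (min_le_right _ _) (Nat.cast_nonneg K)).trans (hK.trans ?_)
      have : ((range K).filter (fun k : ℕ =>
          c1 * ((u k : ℝ) / Real.log (u k)) ≤ (below α (u k) : ℝ))) ⊆
          ((range K).filter (fun k : ℕ =>
          min c0 c1 * ((u k : ℝ) / Real.log (u k)) ≤ (below α (u k) : ℝ))) := by
        intro k hk
        rw [mem_filter] at hk ⊢
        exact ⟨hk.1, (mul_le_mul_of_nonneg_right (min_le_right _ _) (hy _)).trans hk.2⟩
      exact_mod_cast card_le_card this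

end Pool.Agent.Results.MP_a8fbd7_nt.CountsAlongLines
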