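import Mathlib
import Pool.Agent.P8H13.NT.Fin

/-!
# Primes just above `x² + α x^θ` and `x² - x + α x^θ`, `7/10 < θ < 1` (helper13)

Let `7/10 < θ < 1`. For `α ∈ (0, 1)` and `λ > 0` we count the primes among the next `λ log x` integers
above `x² + α x^θ`, and above `x² - x + α x^θ`: these are points in the initial parts of length `x^θ` of
Oppermann's intervals `(x², x² + x)` and `(x² - x, x²)`. Let `above θ α λ t N` be the number of the
`x ∈ (N, 2 N]` with at least `t` such primes above `x² + α x^θ`, and `below θ α λ t N` the same for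
`x² - x + α x^θ`. For every strictly increasing sequence `u` of scales, almost every `α ∈ (0, 1)`
(Lebesgue measure) and all `λ > 0`, both `above` and `below` are at least `c (λ / (1 + λ)) N` with
`t = max (1, c λ)`, of the order of the expected number of the primes, at a set of scales `N = u_k` whose
`k` have upper density at least `c λ / (1 + λ)`. The constant `c` depends only on `θ`.

Proof. Let `w(x)` be the number of the primes among the next `λ log N` integers. First moment over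
`α ∈ [β, γ]`: a lower bound for the number of the primes in the parts `(x² + β x^θ, x² + γ x^θ)`, on average
over `x` (`Pool.Agent.P8H13.OP.rowsum`, from `MP_391708_nt.ThinFamilyLowerBound`, helper792, and
`Pool.Agent.N511.LL.b2`, helper511). Second moment, now over `α` and for every single row `x`: the integers
`x² + a`, `β x^θ ≤ a ≤ γ x^θ`, are an interval, so the upper bound sieve
(`Pool.Agent.Y257.HS.s_TH`, dimensions 1 and 2) gives at most `C (d / φ(d)) L / log² L` pairs of primes at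
the distance `d` in an interval of length `L`, wherever it lies; the mean of `d / φ(d)` is bounded
(`Pool.Agent.N837.LP.sum_div_totient`). Hence `∫ w(x)² ≤ C (λ + λ²) (γ - β)`. By the Cauchy-Schwarz
inequality the good `α ∈ [β, γ]` have the measure `≥ c (λ / (1 + λ)) (γ - β)` at every large scale; averaging
over the scales and Lebesgue's density theorem finish the proof.
-/

set_option autoImplicit false

namespace Pool.Agent.Results.MP_a8fbd7_nt.CountsNearSquares

open Finset Filter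

/-- The number of the primes `p` with `y < p ≤ y + h`. -/
noncomputable def primesIn (y h : ℝ) : ℕ := Set.ncard {p : ℕ | p.Prime ∧ y < p ∧ (p : ℝ) ≤ y + h}

/-- The number of the `x` with `N < x ≤ 2 N` for which there are at least `t` primes `p` with
`x² + α x^θ < p ≤ x² + α x^θ + λ log x`. -/
noncomputable def above (θ α lam t : ℝ) (N : ℕ) : ℕ :=
  ((Ioc N (2 * N)).filter (fun x : ℕ =>
    t ≤ (primesIn ((x : ℝ) ^ 2 + α * (x : ℝ) ^ θ) (lam * Real.log x) : ℝ))).card

/-- The number of the `x` with `N < x ≤ 2 N` for which there are at least `t` primes `p` with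
`x² - x + α x^θ < p ≤ x² - x + α x^θ + λ log x`. -/
noncomputable def below (θ α lam t : ℝ) (N : ℕ) : ℕ :=
  ((Ioc N (2 * N)).filter (fun x : ℕ =>
    t ≤ (primesIn ((x : ℝ) ^ 2 - x + α * (x : ℝ) ^ θ) (lam * Real.log x) : ℝ))).card

/-- **Primes just above `x² + α x^θ` and `x² - x + α x^θ`.** Let `7/10 < θ < 1`. There is `c > 0` such that
for every strictly increasing sequence `u` of natural numbers, almost every `α ∈ (0, 1)` and all `λ > 0`
the following holds with `t = max (1, c λ)`. There are arbitrarily large `K` such that at least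
`c (λ / (1 + λ)) K` of the `k < K` satisfy `c (λ / (1 + λ)) u_k ≤ above θ α λ t u_k`, and there are
arbitrarily large `K` such that at least `c (λ / (1 + λ)) K` of the `k < K` satisfy
`c (λ / (1 + λ)) u_k ≤ below θ α λ t u_k`. -/
theorem result : ∀ θ : ℝ, 7 / 10 < θ → θ < 1 → ∃ c : ℝ, 0 < c ∧
    ∀ u : ℕ → ℕ, StrictMono u → ∀ᵐ α : ℝ, 0 < α → α < 1 → ∀ lam : ℝ, 0 < lam →
      (∃ᶠ K : ℕ in atTop, c * (lam / (1 + lam)) * K ≤ (((range K).filter (fun k : ℕ =>
        c * (lam / (1 + lam)) * (u k : ℝ) ≤ (above θ α lam (max 1 (c * lam)) (u k) : ℝ))).card : ℝ)) ∧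
      (∃ᶠ K : ℕ in atTop, c * (lam / (1 + lam)) * K ≤ (((range K).filter (fun k : ℕ =>
        c * (lam / (1 + lam)) * (u k : ℝ) ≤ (below θ α lam (max 1 (c * lam)) (u k) : ℝ))).card : ℝ)) := by
  classical
  intro θ hθ hθ1
  have e0 : ∀ x : ℕ, ((Pool.Agent.P8H13.OP.q 0 x : ℕ) : ℝ) = (x : ℝ) ^ 2 := by
    intro x
    have h := Pool.Agent.P8H13.OP.q_cast 0 (Or.inl rfl) x
    rw [zero_mul, add_zero] at h
    have h2 : (((Pool.Agent.P8H13.OP.q 0 x : ℕ) : ℤ) : ℝ) = (((x : ℤ) ^ 2 : ℤ) : ℝ) := by rw [h]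
    push_cast at h2
    exact h2
  have e1 : ∀ x : ℕ, ((Pool.Agent.P8H13.OP.q (-1) x : ℕ) : ℝ) = (x : ℝ) ^ 2 - x := by
    intro x
    have h := Pool.Agent.P8H13.OP.q_cast (-1) (Or.inr rfl) x
    have h2 : (((Pool.Agent.P8H13.OP.q (-1) x : ℕ) : ℤ) : ℝ) = (((x : ℤ) ^ 2 + -1 * x : ℤ) : ℝ) := by rw [h]
    push_cast at h2
    rw [h2]
    ring
  have n0 : ∀ (α lam t : ℝ) (N : ℕ), Pool.Agent.P8H13.NT.Nr 0 θ α lam t N = above θ α lam t N := by
    intro α lam t N
    unfold Pool.Agent.P8H13.NT.Nr above Pool.Agent.P8H13.NQ.pri primesIn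
    simp only [e0]
  have n1 : ∀ (α lam t : ℝ) (N : ℕ), Pool.Agent.P8H13.NT.Nr (-1) θ α lam t N = below θ α lam t N := by
    intro α lam t N
    unfold Pool.Agent.P8H13.NT.Nr below Pool.Agent.P8H13.NQ.pri primesIn
    simp only [e1]
  obtain ⟨c0, t0, δ0, hc0, ht0, hδ0, l0⟩ := Pool.Agent.P8H13.NT.densT 0 (Or.inl rfl) θ hθ hθ1.le
  obtain ⟨c1, t1, δ1, hc1, ht1, hδ1, l1⟩ := Pool.Agent.P8H13.NT.densT (-1) (Or.inr rfl) θ hθ hθ1.le
  obtain ⟨c, hc⟩ : ∃ c : ℝ, c = min (min (min c0 t0) δ0) (min (min c1 t1) δ1) := ⟨_, rfl⟩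
  have hcc0 : c ≤ c0 := by rw [hc]; exact (min_le_left _ _).trans ((min_le_left _ _).trans (min_le_left _ _))
  have hct0 : c ≤ t0 := by rw [hc]; exact (min_le_left _ _).trans ((min_le_left _ _).trans (min_le_right _ _))
  have hcd0 : c ≤ δ0 := by rw [hc]; exact (min_le_left _ _).trans (min_le_right _ _)
  have hcc1 : c ≤ c1 := by rw [hc]; exact (min_le_right _ _).trans ((min_le_left _ _).trans (min_le_left _ _))
  have hct1 : c ≤ t1 := by rw [hc]; exact (min_le_right _ _).trans ((min_le_left _ _).trans (min_le_right _ _))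
  have hcd1 : c ≤ δ1 := by rw [hc]; exact (min_le_right _ _).trans (min_le_right _ _)
  have hc00 : 0 < c := by rw [hc]; exact lt_min (lt_min (lt_min hc0 ht0) hδ0) (lt_min (lt_min hc1 ht1) hδ1)
  refine ⟨c, hc00, ?_⟩
  intro u hu
  filter_upwards [l0 u hu, l1 u hu] with α a0 a1 hα0 hα1 lam hlam
  have b0 := a0 ⟨hα0, hα1⟩ lam hlam
  have b1 := a1 ⟨hα0, hα1⟩ lam hlam
  have hl : 0 ≤ lam / (1 + lam) := by positivity
  have key : ∀ (b : ℤ) (cb tb : ℝ), c ≤ cb → c ≤ tb → ∀ k : ℕ,
      cb * (lam / (1 + lam)) * (u k : ℝ) ≤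
        (Pool.Agent.P8H13.NT.near b θ α ⌊lam * Real.log (u k)⌋₊ (max 1 (tb * lam)) (u k) : ℝ) →
      c * (lam / (1 + lam)) * (u k : ℝ) ≤ (Pool.Agent.P8H13.NT.Nr b θ α lam (max 1 (c * lam)) (u k) : ℝ) := by
    intro b cb tb hcb htb k h
    have h1 : c * (lam / (1 + lam)) * (u k : ℝ) ≤ cb * (lam / (1 + lam)) * (u k : ℝ) :=
      mul_le_mul_of_nonneg_right (mul_le_mul_of_nonneg_right hcb hl) (Nat.cast_nonneg _)
    rcases Nat.eq_zero_or_pos (u k) with h0 | h0
    · rw [h0]
      simp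
    · have h2 := Pool.Agent.P8H13.NT.near_le_Nr b θ α hα0.le lam hlam (max 1 (c * lam)) (u k) h0
      have h4 := Pool.Agent.P8H13.NT.near_mono b θ α (le_refl ⌊lam * Real.log (u k)⌋₊)
        (max_le_max (le_refl (1 : ℝ)) (mul_le_mul_of_nonneg_right htb hlam.le)) (u k)
      have h3 : (Pool.Agent.P8H13.NT.near b θ α ⌊lam * Real.log (u k)⌋₊ (max 1 (tb * lam)) (u k) : ℝ) ≤
          Pool.Agent.P8H13.NT.Nr b θ α lam (max 1 (c * lam)) (u k) := by exact_mod_cast h4.trans h2
      linarith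
  constructor
  · refine b0.mono fun K hK => ?_
    refine (mul_le_mul_of_nonneg_right (mul_le_mul_of_nonneg_right hcd0 hl) (Nat.cast_nonneg K)).trans
      (hK.trans ?_)
    have : ((range K).filter (fun k : ℕ => c0 * (lam / (1 + lam)) * (u k : ℝ) ≤
          (Pool.Agent.P8H13.NT.near 0 θ α ⌊lam * Real.log (u k)⌋₊ (max 1 (t0 * lam)) (u k) : ℝ))) ⊆
        ((range K).filter (fun k : ℕ =>
        c * (lam / (1 + lam)) * (u k : ℝ) ≤ (above θ α lam (max 1 (c * lam)) (u k) : ℝ))) := by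
      intro k hk
      rw [mem_filter] at hk ⊢
      rw [← n0]
      exact ⟨hk.1, key 0 c0 t0 hcc0 hct0 k hk.2⟩
    exact_mod_cast card_le_card this
  · refine b1.mono fun K hK => ?_
    refine (mul_le_mul_of_nonneg_right (mul_le_mul_of_nonneg_right hcd1 hl) (Nat.cast_nonneg K)).trans
      (hK.trans ?_)
    have : ((range K).filter (fun k : ℕ => c1 * (lam / (1 + lam)) * (u k : ℝ) ≤
          (Pool.Agent.P8H13.NT.near (-1) θ α ⌊lam * Real.log (u k)⌋₊ (max 1 (t1 * lam)) (u k) : ℝ))) ⊆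
        ((range K).filter (fun k : ℕ =>
        c * (lam / (1 + lam)) * (u k : ℝ) ≤ (below θ α lam (max 1 (c * lam)) (u k) : ℝ))) := by
      intro k hk
      rw [mem_filter] at hk ⊢
      rw [← n1]
      exact ⟨hk.1, key (-1) c1 t1 hcc1 hct1 k hk.2⟩
    exact_mod_cast card_le_card this

end Pool.Agent.Results.MP_a8fbd7_nt.CountsNearSquares
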