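import Mathlib
import Pool.Agent.P8H13.OP.OffB

/-!
# Prime counts in Oppermann's intervals with prescribed offsets (helper13)

For EVERY dense set `D` of offsets, `D ⊆ {1, ..., C}`, `|D| ≥ δ C`, `N^(7/10 + ε) ≤ C ≤ N`, a positive
proportion of the `n ∈ (N, 2 N]` are such that at least `c C / log N` of the numbers `n² + a`, `a ∈ D`
(points of Oppermann's interval `(n², n² + n)`) are prime, the right order, and that Szemerédi's theorem
with differences `≤ (log N)^B` holds for the set of these `a`. The same holds for the numbers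
`n² - n + a` of `(n² - n, n²)` if the elements of `D` are odd. (For special `D`, e.g. the multiples of 3,
the `n` without such primes, e.g. the multiples of 3, have positive density too.)

Proof. The number of the pairs `(n, a)` is bounded from below by the lower bound for the number of the
primes `n² + a`, `n ≤ 2 N`, for almost all `a ≤ C`, of the starting library (`Pool.Agent.N792.t9`, the
hand-in `MP_391708_nt.ThinFamilyLowerBound`) and lower bounds for the constants for almost all `a`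
(`Pool.Agent.N511.LL.b2`, `Pool.Agent.N792.x8`), and the number for one `n` from above by the
Brun-Titchmarsh inequality. The progressions: relative Szemerédi theorem with small differences for sifted
sets in short intervals, of the starting library (`Pool.Agent.Y843.HS.fin`).
-/

set_option autoImplicit false

namespace Pool.Agent.Results.MP_a8fbd7_nt.PrescribedOffsets

open Finset

/-- the offsets `a ∈ D` with `Q + a` prime -/
def Off (Q : ℕ) (D : Finset ℕ) : Finset ℕ := D.filter (fun a => (Q + a).Prime)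

/-- the elements `a` of `U` for which there is a `d`, `1 ≤ d ≤ R`, such that `a, a + d, ..., a + (m-1) d`
are in `U` -/
def First (m : ℕ) (R : ℝ) (U : Finset ℕ) : Set ℕ :=
  {a | a ∈ U ∧ ∃ d : ℕ, 1 ≤ d ∧ (d : ℝ) ≤ R ∧ ∀ j < m, a + j * d ∈ U}

open Classical in
/-- at least `T` numbers `Q + a`, `a ∈ D`, are prime, and in every set `V` of such `a` all but the
proportion `η` (of the set of all such `a`) are first terms of progressions of `m` terms in `V` with a
difference `≤ R` -/
def Rich (T η : ℝ) (m : ℕ) (R : ℝ) (Q : ℕ) (D : Finset ℕ) : Prop :=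
  T ≤ ((Off Q D).card : ℝ) ∧
    ∀ V ⊆ Off Q D, ((V.filter (fun a => a ∉ First m R V)).card : ℝ) ≤ η * (Off Q D).card

/-- **Prescribed offsets.** For all `ε, δ > 0` there is `c > 0` such that for all `m` and `η > 0` there are
`B, N₀` such that for all `N ≥ N₀`, all `C` with `N^(7/10 + ε) ≤ C ≤ N` and all sets `D ⊆ {1, ..., C}` with
at least `δ C` elements: at least `c N` of the `n ∈ (N, 2 N]` are such that at least `c C / log N` of the
numbers `n² + a`, `a ∈ D`, are prime and all but the proportion `η` of the elements of every set `V` of such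
`a` are first terms of progressions of `m` terms in `V` with a difference `≤ (log N)^B`; if all elements of
`D` are odd, the same holds with `n² - n` instead of `n²`. -/
theorem result (ε δ : ℝ) (hε : 0 < ε) (hδ : 0 < δ) :
    ∃ c : ℝ, 0 < c ∧ ∀ (m : ℕ) (η : ℝ), 0 < η → ∃ B N₀ : ℕ, ∀ N : ℕ, N₀ ≤ N →
      ∀ C : ℕ, (N : ℝ) ^ (7 / 10 + ε) ≤ C → C ≤ N → ∀ D ⊆ Icc 1 C, δ * C ≤ D.card →
        (∃ X ⊆ Ioc N (2 * N), c * N ≤ (X.card : ℝ) ∧ ∀ n ∈ X,
          Rich (c * (C / Real.log N)) η m (Real.log N ^ B) (n ^ 2) D) ∧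
        ((∀ a ∈ D, Odd a) → ∃ X ⊆ Ioc N (2 * N), c * N ≤ (X.card : ℝ) ∧ ∀ n ∈ X,
          Rich (c * (C / Real.log N)) η m (Real.log N ^ B) (n ^ 2 - n) D) := by
  classical
  obtain ⟨c0, hc0, h0⟩ := Pool.Agent.P8H13.OP.off_main 0 (Or.inl rfl) ε δ hε hδ
  obtain ⟨c1, hc1, h1⟩ := Pool.Agent.P8H13.OP.off_main (-1) (Or.inr rfl) ε δ hε hδ
  have e0 : ∀ x : ℕ, Pool.Agent.P8H13.OP.q 0 x = x ^ 2 := by
    intro x
    unfold Pool.Agent.P8H13.OP.q
    rw [zero_mul, add_zero]
    have : ((x : ℤ) ^ 2) = ((x ^ 2 : ℕ) : ℤ) := by push_cast; rfl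
    rw [this, Int.toNat_natCast]
  have e1 : ∀ x : ℕ, Pool.Agent.P8H13.OP.q (-1) x = x ^ 2 - x := by
    intro x
    have hx : x ≤ x ^ 2 := Nat.le_self_pow (by norm_num) x
    unfold Pool.Agent.P8H13.OP.q
    have : ((x : ℤ) ^ 2 + -1 * x) = ((x ^ 2 - x : ℕ) : ℤ) := by
      rw [Nat.cast_sub hx]
      push_cast
      ring
    rw [this, Int.toNat_natCast]
  refine ⟨min c0 c1, lt_min hc0 hc1, fun m η hη => ?_⟩
  obtain ⟨B0, N0, h0⟩ := h0 m η hη
  obtain ⟨B1, N1, h1⟩ := h1 m η hη
  have mono : ∀ (m : ℕ) (R R' : ℝ) (hR : R ≤ R') (V : Finset ℕ),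
      V.filter (fun a => a ∉ First m R' V) ⊆ Pool.Agent.P8H13.OP.rest m R V := by
    intro m R R' hR V a ha
    unfold Pool.Agent.P8H13.OP.rest
    rw [mem_filter] at ha ⊢
    refine ⟨ha.1, fun h => ha.2 ?_⟩
    obtain ⟨h2, d, h3, h4, h5⟩ := h
    exact ⟨h2, d, h3, h4.trans hR, h5⟩
  refine ⟨B0 + B1, N0 + N1 + 3, fun N hN C hC1 hC2 D hD hcard => ?_⟩
  have hN1 : (1 : ℝ) ≤ Real.log N := by
    rw [Real.le_log_iff_exp_le (by exact_mod_cast (by omega : 0 < N))]
    have h3 : (3 : ℝ) ≤ N := by exact_mod_cast (by omega : 3 ≤ N)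
    linarith [Real.exp_one_lt_d9]
  have hCL : 0 ≤ (C : ℝ) / Real.log N := by positivity
  have hNr : (0 : ℝ) ≤ N := Nat.cast_nonneg N
  constructor
  · obtain ⟨X, hX, hXc, hXr⟩ := h0 N (by omega) C hC1 hC2 D hD (fun h => absurd h (by norm_num)) hcard
    refine ⟨X, hX, le_trans (mul_le_mul_of_nonneg_right (min_le_left _ _) hNr) hXc, fun n hn => ?_⟩
    obtain ⟨h2, h3⟩ := hXr n hn
    rw [e0] at h2 h3
    refine ⟨le_trans (mul_le_mul_of_nonneg_right (min_le_left _ _) hCL) h2, fun V hV => ?_⟩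
    refine le_trans ?_ (h3 V hV)
    exact_mod_cast card_le_card (mono m _ _ (pow_le_pow_right₀ hN1 (by omega)) V)
  · intro ho
    obtain ⟨X, hX, hXc, hXr⟩ := h1 N (by omega) C hC1 hC2 D hD (fun _ => ho) hcard
    refine ⟨X, hX, le_trans (mul_le_mul_of_nonneg_right (min_le_right _ _) hNr) hXc, fun n hn => ?_⟩
    obtain ⟨h2, h3⟩ := hXr n hn
    rw [e1] at h2 h3
    refine ⟨le_trans (mul_le_mul_of_nonneg_right (min_le_right _ _) hCL) h2, fun V hV => ?_⟩
    refine le_trans ?_ (h3 V hV)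
    exact_mod_cast card_le_card (mono m _ _ (pow_le_pow_right₀ hN1 (by omega)) V)

end Pool.Agent.Results.MP_a8fbd7_nt.PrescribedOffsets
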